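import Pool.Agent.H958.RL.Stm2
import Pool.Graph.R_seed8.W657.RD.PBas

/-!
# Project RL: `NK` is small with high probability, uniformly
-/

set_option autoImplicit false

namespace Pool.Agent.H828.RL.Smallu

open Finset Filter Topology
open scoped Classical
open Pool.Agent.W830.RD (Om gle Pr Rlz)
open Pool.Agent.H958.RO (GG dg Bad NN)
open Pool.Agent.H958.RL

noncomputable section

/-! ### Expectations -/

theorem wt_nonneg {p : ℝ} (hp : 0 < p) (hp1 : p < 1) (a b : ℕ) : 0 ≤ p ^ a * (1 - p) ^ b :=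
  mul_nonneg (pow_nonneg hp.le _) (pow_nonneg (by linarith) _)

theorem Ex_mono {p : ℝ} {n : ℕ} (hp : 0 < p) (hp1 : p < 1)
    {X Y : Finset (Fin n × Fin n) → ℝ} (h : ∀ E, X E ≤ Y E) : Ex p n X ≤ Ex p n Y := by
  unfold Ex
  exact Finset.sum_le_sum fun E _ => mul_le_mul_of_nonneg_right (h E) (wt_nonneg hp hp1 _ _)

theorem markov {p : ℝ} {n : ℕ} (hp : 0 < p) (hp1 : p < 1) {X : Finset (Fin n × Fin n) → ℝ}
    (hX : ∀ E, 0 ≤ X E) {a : ℝ} : Pr p n (fun E => a < X E) * a ≤ Ex p n X := by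
  unfold Pr Ex
  rw [Finset.sum_mul]
  have h1 : ∑ E ∈ (Om n).powerset.filter (fun E => a < X E),
      p ^ E.card * (1 - p) ^ ((Om n).card - E.card) * a ≤
      ∑ E ∈ (Om n).powerset.filter (fun E => a < X E),
        X E * (p ^ E.card * (1 - p) ^ ((Om n).card - E.card)) := by
    refine Finset.sum_le_sum fun E hE => ?_
    rw [mul_comm]
    exact mul_le_mul_of_nonneg_right (Finset.mem_filter.1 hE).2.le (wt_nonneg hp hp1 _ _)
  refine h1.trans (Finset.sum_le_sum_of_subset_of_nonneg (Finset.filter_subset _ _) ?_)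
  intro E _ _
  exact mul_nonneg (hX E) (wt_nonneg hp hp1 _ _)

/-! ### Monotonicity of `NN` -/

theorem GG_mono {n : ℕ} {E E' : Finset (Fin n × Fin n)} (h : E ⊆ E') : GG E ≤ GG E' := by
  intro a b hab
  exact ⟨hab.1, hab.2.imp (fun x => h x) (fun x => h x)⟩

theorem dg_mono {n : ℕ} {E E' : Finset (Fin n × Fin n)} (h : E ⊆ E') (S : Finset (Fin n))
    (v : Fin n) : dg E S v ≤ dg E' S v := by
  unfold dg
  refine Finset.card_le_card ?_
  intro w hw
  rw [Finset.mem_filter] at hw ⊢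
  exact ⟨hw.1, GG_mono h hw.2⟩

theorem Bad_mono {n : ℕ} {E E' : Finset (Fin n × Fin n)} (h : E ⊆ E') {l D : ℕ} {v : Fin n}
    (hv : Bad E l D v) : Bad E' l D v := by
  rcases hv with hv | ⟨w, hw, hw'⟩
  · exact Or.inl (lt_of_lt_of_le hv (dg_mono h _ _))
  · exact Or.inr ⟨w, fun i hi => h (hw i hi), hw'⟩

theorem NN_monoE {n : ℕ} {E E' : Finset (Fin n × Fin n)} (h : E ⊆ E') (l D r : ℕ) :
    NN E l D r ⊆ NN E' l D r := by
  intro v hv
  simp only [NN, mem_filter, mem_univ, true_and] at hv ⊢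
  obtain ⟨b, hb, p, hp⟩ := hv
  refine ⟨b, Bad_mono h hb, p.map (SimpleGraph.Hom.ofLE (GG_mono h)), ?_⟩
  rw [SimpleGraph.Walk.length_map]
  exact hp

/-! ### Numerics -/

theorem exp_neg_le {x η : ℝ} (hη : 0 < η) (hx : 1 / η ≤ x) : Real.exp (-x) ≤ η := by
  rw [Real.exp_neg]
  have h1 : 1 / η ≤ Real.exp x := by
    have := Real.add_one_le_exp x
    linarith
  have h2 : 0 < 1 / η := by positivity
  calc (Real.exp x)⁻¹ ≤ (1 / η)⁻¹ := inv_anti₀ h2 h1
    _ = η := by rw [one_div, inv_inv]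

theorem exp_half {c : ℝ} (hc : 2 ≤ c) : Real.exp (-c ^ 2) ≤ 1 / 2 := by
  apply exp_neg_le (by norm_num)
  nlinarith

theorem split_exp (A c : ℝ) :
    Real.exp (-((A + 1) * c ^ 2)) = Real.exp (-(A * c ^ 2)) * Real.exp (-c ^ 2) := by
  rw [← Real.exp_add]
  congr 1
  ring

theorem main (h1 : S_ENB) (h2 : S_NLOC) (h3 : S_GLE) (h4 : S_GCONC) (h5 : S_MONO)
    (h6 : Pool.Agent.H958.RO.S_SMALL) : S_SMALLU := by
  intro ε A hε hA
  obtain ⟨c0', hc0', hENB⟩ := h1 ε (A + 1) hε (by linarith)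
  refine ⟨max c0' 2, le_max_of_le_left hc0', ?_⟩
  intro η' hη'
  obtain ⟨C1, hC1⟩ : ∃ C1 : ℝ, C1 = max (max c0' 2) (1 / η') := ⟨_, rfl⟩
  have hC1a : max c0' 2 ≤ C1 := hC1 ▸ le_max_left _ _
  have hC1b : 1 / η' ≤ C1 := hC1 ▸ le_max_right _ _
  have hC12 : 2 ≤ C1 := (le_max_right _ _).trans hC1a
  have hC1pos : 0 < C1 := by linarith
  obtain ⟨κ, hκ⟩ : ∃ κ : ℝ, κ = Real.exp (-(A * C1 ^ 2)) / 4 := ⟨_, rfl⟩
  have hκpos : 0 < κ := by rw [hκ]; positivity
  obtain ⟨l, D, hl, hT⟩ := h6 C1 κ hC1pos hκpos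
  have hT' : ∀ᶠ n : ℕ in atTop, Pr (C1 / n) n (fun E => κ * n < ((NN E l D (3 * l)).card : ℝ)) <
      η' / 2 := hT.eventually_lt_const (by linarith)
  obtain ⟨N1, hN1⟩ := Filter.eventually_atTop.1 hT'
  obtain ⟨M, hM⟩ : ∃ M : ℝ, M = C1 * (4 * ((D : ℝ) + 1) ^ (3 * l)) ^ 2 / κ ^ 2 := ⟨_, rfl⟩
  have hMnn : 0 ≤ M := by rw [hM]; positivity
  obtain ⟨N2, hN2⟩ := exists_nat_ge (2 * M / η')
  obtain ⟨N3, hN3⟩ := exists_nat_gt C1
  refine ⟨max (max N1 N2) (max N3 1), ?_⟩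
  intro n hn c hc0 hclog
  have hn1 : N1 ≤ n := (le_max_left _ _).trans ((le_max_left _ _).trans hn)
  have hn2 : N2 ≤ n := (le_max_right _ _).trans ((le_max_left _ _).trans hn)
  have hn3 : N3 ≤ n := (le_max_left _ _).trans ((le_max_right _ _).trans hn)
  have hn4 : 1 ≤ n := (le_max_right _ _).trans ((le_max_right _ _).trans hn)
  have hnpos : (0 : ℝ) < n := by exact_mod_cast hn4
  have hc0a : c0' ≤ c := (le_max_left _ _).trans hc0
  have hc2 : 2 ≤ c := (le_max_right _ _).trans hc0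
  have hcpos : 0 < c := by linarith
  have hcn : c < n := by
    have := Real.log_le_sub_one_of_pos hnpos
    linarith
  have hp : 0 < c / n := div_pos hcpos hnpos
  have hp1 : c / n < 1 := (div_lt_one hnpos).2 hcn
  obtain ⟨K, hK⟩ : ∃ K : ℕ, K = ⌈Real.exp ((1 + ε) * c)⌉₊ := ⟨_, rfl⟩
  have hE : Ex (c / n) n (fun E => ((NK E K).card : ℝ)) ≤
      n * (Real.exp (-(A * c ^ 2)) * Real.exp (-c ^ 2)) := by
    rw [hK, ← split_exp]
    exact hENB c n hc0a hcn
  rw [← hK]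
  have hexp : 0 < Real.exp (-(A * c ^ 2)) := Real.exp_pos _
  obtain ⟨_, hPnn, hPmono, hPor, _, _⟩ := Pool.Agent.W657.RD.PBas.main (c / n) n hp hp1
  by_cases hcC : C1 ≤ c
  · -- Markov
    have hpos : 0 < Real.exp (-(A * c ^ 2)) * n := mul_pos hexp hnpos
    have hm := (markov (n := n) hp hp1 (X := fun E => ((NK E K).card : ℝ))
      (fun E => Nat.cast_nonneg _) (a := Real.exp (-(A * c ^ 2)) * n)).trans hE
    have h7 : Real.exp (-c ^ 2) ≤ η' := by
      apply exp_neg_le hη'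
      have : c ≤ c ^ 2 := by nlinarith
      linarith
    have h8 : Pr (c / n) n (fun E => Real.exp (-(A * c ^ 2)) * n < ((NK E K).card : ℝ)) *
        (Real.exp (-(A * c ^ 2)) * n) ≤ η' * (Real.exp (-(A * c ^ 2)) * n) := by
      refine hm.trans ?_
      have h9 : Real.exp (-c ^ 2) * (Real.exp (-(A * c ^ 2)) * n) ≤
          η' * (Real.exp (-(A * c ^ 2)) * n) := mul_le_mul_of_nonneg_right h7 hpos.le
      calc n * (Real.exp (-(A * c ^ 2)) * Real.exp (-c ^ 2)) =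
          Real.exp (-c ^ 2) * (Real.exp (-(A * c ^ 2)) * n) := by ring
        _ ≤ _ := h9
    exact le_of_mul_le_mul_right h8 hpos
  · push Not at hcC
    -- the event of large `NN`
    have hev1 : Pr (c / n) n (fun E => κ * n < ((NN E l D (3 * l)).card : ℝ)) ≤ η' / 2 := by
      have hC1n : C1 < n := lt_of_lt_of_le hN3 (by exact_mod_cast hn3)
      refine (h5 (c / n) (C1 / n) n _ hp (by gcongr) ((div_lt_one hnpos).2 hC1n) ?_).trans
        (hN1 n hn1).le
      intro E E' hEE _ hQ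
      refine lt_of_lt_of_le hQ ?_
      exact_mod_cast Finset.card_le_card (NN_monoE hEE l D (3 * l))
    -- the event of large deviation of `gl`
    have hev2 : Pr (c / n) n (fun E => Ex (c / n) n (fun E => ((gl E K D (3 * l) : ℕ) : ℝ)) + κ * n <
        ((gl E K D (3 * l) : ℕ) : ℝ)) ≤ η' / 2 := by
      refine (h4 (c / n) (κ * n) n K D (3 * l) hp hp1 (mul_pos hκpos hnpos)).trans ?_
      have e1 : c / n * (4 * ((D : ℝ) + 1) ^ (3 * l)) ^ 2 * (n : ℝ) ^ 2 / (κ * n) ^ 2 =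
          c * (4 * ((D : ℝ) + 1) ^ (3 * l)) ^ 2 / κ ^ 2 / n := by
        field_simp
      rw [e1, div_le_iff₀ hnpos]
      have e2 : c * (4 * ((D : ℝ) + 1) ^ (3 * l)) ^ 2 / κ ^ 2 ≤ M := by
        rw [hM]
        have : c * (4 * ((D : ℝ) + 1) ^ (3 * l)) ^ 2 ≤ C1 * (4 * ((D : ℝ) + 1) ^ (3 * l)) ^ 2 :=
          mul_le_mul_of_nonneg_right hcC.le (by positivity)
        exact div_le_div_of_nonneg_right this (by positivity)
      refine e2.trans ?_
      have e3 : 2 * M / η' ≤ n := hN2.trans (by exact_mod_cast hn2)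
      rw [div_le_iff₀ hη'] at e3
      linarith
    -- the expectation of `gl`
    have hgl : Ex (c / n) n (fun E => ((gl E K D (3 * l) : ℕ) : ℝ)) ≤
        n * (Real.exp (-(A * c ^ 2)) / 2) := by
      refine (Ex_mono hp hp1 (fun E => ?_)).trans (hE.trans ?_)
      · exact_mod_cast h3 n K D (3 * l) E
      · have := exp_half hc2
        have e4 : Real.exp (-(A * c ^ 2)) * Real.exp (-c ^ 2) ≤ Real.exp (-(A * c ^ 2)) / 2 := by
          have := mul_le_mul_of_nonneg_left this hexp.le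
          linarith
        exact mul_le_mul_of_nonneg_left e4 hnpos.le
    have hκc : κ ≤ Real.exp (-(A * c ^ 2)) / 4 := by
      rw [hκ]
      have : Real.exp (-(A * C1 ^ 2)) ≤ Real.exp (-(A * c ^ 2)) := by
        apply Real.exp_le_exp.2
        have : c ^ 2 ≤ C1 ^ 2 := by gcongr
        have := mul_le_mul_of_nonneg_left this hA.le
        linarith
      linarith
    have hκn : κ * n ≤ Real.exp (-(A * c ^ 2)) / 4 * n := mul_le_mul_of_nonneg_right hκc hnpos.le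
    refine (hPmono _ (fun E => κ * n < ((NN E l D (3 * l)).card : ℝ) ∨
      Ex (c / n) n (fun E => ((gl E K D (3 * l) : ℕ) : ℝ)) + κ * n <
        ((gl E K D (3 * l) : ℕ) : ℝ)) ?_).trans ((hPor _ _).trans ?_)
    · intro E hEOm hbig
      by_contra hcon
      push Not at hcon
      obtain ⟨g1, g2⟩ := hcon
      have g3 : ((NK E K).card : ℝ) ≤ ((NN E l D (3 * l)).card : ℝ) +
          ((gl E K D (3 * l) : ℕ) : ℝ) := by
        exact_mod_cast h2 n l D K E hEOm hl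
      linarith
    · linarith

end

end Pool.Agent.H828.RL.Smallu
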